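import Mathlib

/-!
For every odd prime `p` there is an `n` such that `p` divides `gcd (num H_n) n!` exactly once.
-/

set_option autoImplicit false
set_option linter.unusedSectionVars false

namespace Pool.Agent.Results.MP_0252b8_nt.ExactOnce

open Finset

section

variable {p : ℕ} [hp : Fact p.Prime]

theorem norm_unit_of_coprime {m : ℤ} (h : ¬ (p : ℤ) ∣ m) : padicNorm p (m : ℚ) = 1 := by
  exact (padicNorm.int_eq_one_iff m).2 h

theorem norm_le_inv {m : ℤ} (h : (p : ℤ) ∣ m) : padicNorm p (m : ℚ) ≤ (p : ℚ)⁻¹ := by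
  have h1 := (padicNorm.dvd_iff_norm_le (p := p) (n := 1) (z := m)).1 (by simpa using h)
  simpa using h1

theorem norm_pow' (x : ℚ) (k : ℕ) : padicNorm p (x ^ k) = padicNorm p x ^ k := by
  induction k with
  | zero => simp
  | succ k ih => rw [pow_succ, pow_succ, padicNorm.mul, ih]

theorem norm_prod {α : Type*} (s : Finset α) (f : α → ℚ) :
    padicNorm p (∏ i ∈ s, f i) = ∏ i ∈ s, padicNorm p (f i) := by
  classical
  induction s using Finset.induction_on with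
  | empty => simp
  | insert a s ha ih => rw [prod_insert ha, prod_insert ha, padicNorm.mul, ih]

theorem norm_sum_le {α : Type*} (s : Finset α) (f : α → ℚ) (t : ℚ) (ht : 0 ≤ t)
    (h : ∀ i ∈ s, padicNorm p (f i) ≤ t) : padicNorm p (∑ i ∈ s, f i) ≤ t :=
  padicNorm.sum_le' h ht

theorem inv_p_nonneg : (0 : ℚ) ≤ (p : ℚ)⁻¹ := by positivity

/-- The `n`-th block. -/
def blk (p n : ℕ) : ℚ := ∑ r ∈ range (p - 1), 1 / ((p * n + (r + 1) : ℕ) : ℚ)

theorem not_dvd_add {n r : ℕ} (hr : r < p - 1) : ¬ (p : ℤ) ∣ ((p * n + (r + 1) : ℕ) : ℤ) := by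
  intro h
  have h1 : p ∣ p * n + (r + 1) := by exact_mod_cast h
  have h2 : p ∣ r + 1 := (Nat.dvd_add_right (dvd_mul_right p n)).1 h1
  have := Nat.le_of_dvd (by omega) h2
  omega

theorem norm_add_eq {n r : ℕ} (hr : r < p - 1) : padicNorm p ((p * n + (r + 1) : ℕ) : ℚ) = 1 := by
  have := norm_unit_of_coprime (p := p) (not_dvd_add (n := n) hr)
  simpa using this

theorem two_mul_blk (n : ℕ) : 2 * blk p n = (p * (2 * n + 1) : ℕ) *
    ∑ r ∈ range (p - 1), 1 / (((p * n + (r + 1) : ℕ) : ℚ) * ((p * n + (p - 2 - r + 1) : ℕ) : ℚ)) := by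
  have h1 : blk p n = ∑ r ∈ range (p - 1), 1 / ((p * n + (p - 2 - r + 1) : ℕ) : ℚ) := by
    unfold blk
    rw [← Finset.sum_range_reflect]
    refine sum_congr rfl fun r hr => ?_
    have : p - 1 - 1 - r = p - 2 - r := by omega
    rw [this]
  have h2 : 2 * blk p n = blk p n + ∑ r ∈ range (p - 1), 1 / ((p * n + (p - 2 - r + 1) : ℕ) : ℚ) := by
    rw [← h1]; ring
  rw [h2]
  unfold blk
  rw [← sum_add_distrib, mul_sum]
  refine sum_congr rfl fun r hr => ?_
  have hr' := mem_range.1 hr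
  have h3 : ((p * n + (r + 1) : ℕ) : ℚ) ≠ 0 := by positivity
  have h4 : ((p * n + (p - 2 - r + 1) : ℕ) : ℚ) ≠ 0 := by positivity
  have h5 : ((p * (2 * n + 1) : ℕ) : ℚ) = ((p * n + (r + 1) : ℕ) : ℚ) +
      ((p * n + (p - 2 - r + 1) : ℕ) : ℚ) := by
    rw [← Nat.cast_add]
    congr 1
    have : p - 2 - r + 1 + (r + 1) = p := by omega
    calc p * (2 * n + 1) = p * n + p * n + p := by ring
      _ = p * n + p * n + (p - 2 - r + 1 + (r + 1)) := by rw [this]
      _ = _ := by ring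
  rw [h5]
  field_simp
  ring

theorem norm_two (hp2 : p ≠ 2) : padicNorm p (2 : ℚ) = 1 := by
  have : ¬ (p : ℤ) ∣ 2 := by
    intro h
    have h1 : p ∣ 2 := by exact_mod_cast h
    exact hp2 ((Nat.prime_dvd_prime_iff_eq hp.out Nat.prime_two).1 h1)
  simpa using norm_unit_of_coprime this

theorem norm_blk_le (hp2 : p ≠ 2) (n : ℕ) : padicNorm p (blk p n) ≤ (p : ℚ)⁻¹ := by
  have h1 : padicNorm p (2 * blk p n) = padicNorm p (blk p n) := by
    rw [padicNorm.mul, norm_two hp2, one_mul]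
  rw [← h1, two_mul_blk, padicNorm.mul]
  have h2 : padicNorm p ((p * (2 * n + 1) : ℕ) : ℚ) ≤ (p : ℚ)⁻¹ := by
    have := norm_le_inv (p := p) (m := ((p * (2 * n + 1) : ℕ) : ℤ)) (by push_cast; exact dvd_mul_right _ _)
    simpa using this
  have h3 : padicNorm p (∑ r ∈ range (p - 1), 1 / (((p * n + (r + 1) : ℕ) : ℚ) *
      ((p * n + (p - 2 - r + 1) : ℕ) : ℚ))) ≤ 1 := by
    refine norm_sum_le _ _ 1 zero_le_one fun r hr => ?_
    have hr' := mem_range.1 hr
    rw [padicNorm.div, padicNorm.mul, norm_add_eq hr', norm_add_eq (by omega)]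
    simp
  calc _ ≤ (p : ℚ)⁻¹ * 1 := mul_le_mul h2 h3 (padicNorm.nonneg _) inv_p_nonneg
    _ = _ := mul_one _

theorem sum_pow_zmod {k : ℕ} (hk : k < p - 1) (hk0 : k ≠ 0) :
    ∑ r ∈ range (p - 1), ((r + 1 : ℕ) : ZMod p) ^ k = 0 := by
  have h1 : ∑ x : ZMod p, x ^ k = 0 := FiniteField.sum_pow_lt_card_sub_one (ZMod p) k (by
    rw [ZMod.card]; exact hk)
  have h2 : ∑ r ∈ range p, ((r : ℕ) : ZMod p) ^ k = ∑ x : ZMod p, x ^ k := by
    refine sum_bij (fun r _ => (r : ZMod p)) (fun _ _ => mem_univ _) ?_ ?_ (fun _ _ => rfl)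
    · intro a ha b hb hab
      have := (ZMod.natCast_eq_natCast_iff' a b p).1 hab
      rwa [Nat.mod_eq_of_lt (mem_range.1 ha), Nat.mod_eq_of_lt (mem_range.1 hb)] at this
    · intro b _
      exact ⟨b.val, mem_range.2 (ZMod.val_lt b), ZMod.natCast_zmod_val b⟩
  rw [h1] at h2
  have h3 : range p = range ((p - 1) + 1) := by
    congr 1
    have := hp.out.pos
    omega
  rw [h3, sum_range_succ'] at h2
  simpa [hk0] using h2

theorem norm_sq_sum (hp5 : 5 ≤ p) :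
    padicNorm p (∑ r ∈ range (p - 1), 1 / ((r + 1 : ℕ) : ℚ) ^ 2) ≤ (p : ℚ)⁻¹ := by
  have h1 : padicNorm p (((∑ r ∈ range (p - 1), ((r + 1 : ℕ) : ℤ) ^ (p - 3) : ℤ)) : ℚ) ≤ (p : ℚ)⁻¹ := by
    refine norm_le_inv ?_
    rw [← ZMod.intCast_zmod_eq_zero_iff_dvd]
    push_cast
    have := sum_pow_zmod (p := p) (k := p - 3) (by omega) (by omega)
    simpa using this
  have h2 : ∑ r ∈ range (p - 1), 1 / ((r + 1 : ℕ) : ℚ) ^ 2 =
      (((∑ r ∈ range (p - 1), ((r + 1 : ℕ) : ℤ) ^ (p - 3) : ℤ)) : ℚ) +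
      ∑ r ∈ range (p - 1), (1 / ((r + 1 : ℕ) : ℚ) ^ 2 - ((r + 1 : ℕ) : ℚ) ^ (p - 3)) := by
    rw [sum_sub_distrib]
    push_cast
    ring
  rw [h2]
  refine (padicNorm.nonarchimedean (p := p)).trans (max_le h1 ?_)
  refine norm_sum_le _ _ _ inv_p_nonneg fun r hr => ?_
  have hr' := mem_range.1 hr
  have h3 : ((r + 1 : ℕ) : ℚ) ≠ 0 := by positivity
  have h4 : 1 / ((r + 1 : ℕ) : ℚ) ^ 2 - ((r + 1 : ℕ) : ℚ) ^ (p - 3) =
      ((1 - ((r + 1 : ℕ) : ℤ) ^ (p - 1) : ℤ) : ℚ) / ((r + 1 : ℕ) : ℚ) ^ 2 := by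
    have : p - 1 = (p - 3) + 2 := by omega
    rw [this]
    push_cast
    rw [pow_add]
    field_simp
  rw [h4, padicNorm.div]
  have h5 : padicNorm p (((r + 1 : ℕ) : ℚ) ^ 2) = 1 := by
    rw [norm_pow']
    have := norm_add_eq (p := p) (n := 0) hr'
    simp only [mul_zero, zero_add] at this
    rw [this, one_pow]
  rw [h5, div_one]
  refine norm_le_inv ?_
  rw [← ZMod.intCast_zmod_eq_zero_iff_dvd]
  push_cast
  have h6 : ((r : ZMod p) + 1) ≠ 0 := by
    intro h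
    have h7 : ((r + 1 : ℕ) : ZMod p) = 0 := by push_cast; exact h
    rw [ZMod.natCast_eq_zero_iff] at h7
    have := Nat.le_of_dvd (by omega) h7
    omega
  rw [ZMod.pow_card_sub_one_eq_one h6, sub_self]

/-- Wolstenholme. -/
theorem norm_blk_zero (hp5 : 5 ≤ p) : padicNorm p (blk p 0) ≤ (p : ℚ)⁻¹ ^ 2 := by
  have hp2 : p ≠ 2 := by omega
  have h1 : padicNorm p (2 * blk p 0) = padicNorm p (blk p 0) := by
    rw [padicNorm.mul, norm_two hp2, one_mul]
  rw [← h1, two_mul_blk, padicNorm.mul, pow_two]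
  refine mul_le_mul ?_ ?_ (padicNorm.nonneg _) inv_p_nonneg
  · simp [padicNorm.padicNorm_p_of_prime]
  · have h2 : ∑ r ∈ range (p - 1), 1 / (((p * 0 + (r + 1) : ℕ) : ℚ) *
        ((p * 0 + (p - 2 - r + 1) : ℕ) : ℚ)) =
        (∑ r ∈ range (p - 1), (p : ℚ) / (((r + 1 : ℕ) : ℚ) ^ 2 * ((p - 2 - r + 1 : ℕ) : ℚ))) -
        ∑ r ∈ range (p - 1), 1 / ((r + 1 : ℕ) : ℚ) ^ 2 := by
      rw [← sum_sub_distrib]
      refine sum_congr rfl fun r hr => ?_
      have hr' := mem_range.1 hr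
      have h3 : ((r + 1 : ℕ) : ℚ) ≠ 0 := by positivity
      have h4 : ((p - 2 - r + 1 : ℕ) : ℚ) ≠ 0 := by positivity
      have h5 : (p : ℚ) = ((r + 1 : ℕ) : ℚ) + ((p - 2 - r + 1 : ℕ) : ℚ) := by
        rw [← Nat.cast_add]; congr 1; omega
      rw [h5]
      simp only [mul_zero, zero_add]
      field_simp
      ring
    rw [h2]
    refine (padicNorm.sub (p := p)).trans (max_le ?_ (norm_sq_sum hp5))
    refine norm_sum_le _ _ _ inv_p_nonneg fun r hr => ?_
    have hr' := mem_range.1 hr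
    have h3 := norm_add_eq (p := p) (n := 0) hr'
    have h4 := norm_add_eq (p := p) (n := 0) (r := p - 2 - r) (by omega)
    simp only [mul_zero, zero_add] at h3 h4
    rw [padicNorm.div, padicNorm.mul, norm_pow', h3, h4]
    simp [padicNorm.padicNorm_p_of_prime]

theorem harm_add (a b : ℕ) :
    harmonic (a + b) = harmonic a + ∑ r ∈ range b, 1 / ((a + (r + 1) : ℕ) : ℚ) := by
  induction b with
  | zero => simp
  | succ b ih =>
    rw [← add_assoc, harmonic_succ, ih, sum_range_succ, add_assoc]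
    congr 2
    push_cast
    rw [one_div]
    congr 1
    ring

theorem harm_top (n : ℕ) : harmonic (p * n + (p - 1)) = harmonic (p * n) + blk p n :=
  harm_add _ _

theorem harm_mul (n : ℕ) : harmonic (p * n) = harmonic n / p + ∑ j ∈ range n, blk p j := by
  induction n with
  | zero => simp
  | succ n ih =>
    have h1 : p * (n + 1) = (p * n + (p - 1)) + 1 := by
      have := hp.out.pos
      have h2 : p - 1 + 1 = p := by omega
      rw [add_assoc, h2]; ring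
    have hp0 : (p : ℚ) ≠ 0 := by exact_mod_cast hp.out.ne_zero
    rw [h1, harmonic_succ, ← h1, harm_top, ih, sum_range_succ, harmonic_succ]
    push_cast
    field_simp
    ring

theorem disc {x : ℚ} (h1 : padicNorm p x ≤ (p : ℚ)⁻¹) (h2 : padicNorm p x ≠ (p : ℚ)⁻¹) : padicNorm p x ≤ (p : ℚ)⁻¹ ^ 2 := by
  rcases eq_or_ne x 0 with rfl | hx
  · rw [padicNorm.zero]; positivity
  · obtain ⟨z, hz⟩ := padicNorm.values_discrete (p := p) hx
    have hp1 : (1 : ℚ) < p := by exact_mod_cast hp.out.one_lt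
    rw [hz] at h1 h2 ⊢
    have h3 : (p : ℚ)⁻¹ = (p : ℚ) ^ (-1 : ℤ) := by simp
    have h4 : (p : ℚ)⁻¹ ^ 2 = (p : ℚ) ^ (-2 : ℤ) := by
      rw [inv_pow]; rfl
    rw [h3] at h1 h2
    rw [h4]
    have h5 : -z ≤ -1 := (zpow_le_zpow_iff_right₀ hp1).1 h1
    have h6 : -z ≠ -1 := fun h => h2 (by rw [h])
    exact (zpow_le_zpow_iff_right₀ hp1).2 (by omega)

theorem disc' {x : ℚ} (h1 : padicNorm p x < 1) : padicNorm p x ≤ (p : ℚ)⁻¹ := by
  rcases eq_or_ne x 0 with rfl | hx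
  · rw [padicNorm.zero]; positivity
  · obtain ⟨z, hz⟩ := padicNorm.values_discrete (p := p) hx
    have hp1 : (1 : ℚ) < p := by exact_mod_cast hp.out.one_lt
    rw [hz] at h1 ⊢
    have h3 : (p : ℚ)⁻¹ = (p : ℚ) ^ (-1 : ℤ) := by simp
    have h4 : (1 : ℚ) = (p : ℚ) ^ (0 : ℤ) := by simp
    rw [h4] at h1
    rw [h3]
    have h5 : -z < 0 := (zpow_lt_zpow_iff_right₀ hp1).1 h1
    exact (zpow_le_zpow_iff_right₀ hp1).2 (by omega)

/-- Numbers with base `p` digits `0`, `p - 1` and leading digit `p - 1`. -/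
inductive T (p : ℕ) : ℕ → Prop
  | base : T p (p - 1)
  | zero (n : ℕ) : T p n → T p (p * n)
  | top (n : ℕ) : T p n → T p (p * n + (p - 1))

theorem T_pow {n : ℕ} (h : T p n) (i : ℕ) : T p (p ^ i * n) := by
  induction i with
  | zero => simpa using h
  | succ i ih =>
    have := T.zero _ ih
    rwa [← mul_assoc, ← pow_succ'] at this

theorem norm_p : padicNorm p (p : ℚ) = (p : ℚ)⁻¹ := padicNorm.padicNorm_p_of_prime

theorem T_norm (hp5 : 5 ≤ p) (h : ∀ n, 2 * p ≤ n → padicNorm p (harmonic n) ≠ (p : ℚ)⁻¹) (n : ℕ)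
    (hn : T p n) : p - 1 ≤ n ∧ padicNorm p (harmonic n) ≤ (p : ℚ)⁻¹ ^ 2 := by
  have hp0 : (0 : ℚ) < (p : ℚ)⁻¹ := by
    have := hp.out.pos
    positivity
  induction hn with
  | base =>
    refine ⟨le_rfl, ?_⟩
    have h1 : harmonic (p - 1) = blk p 0 := by
      have := harm_top (p := p) 0
      simpa using this
    rw [h1]
    exact norm_blk_zero hp5
  | zero n _ ih =>
    have h1 : 4 * p ≤ p * n := by
      rw [mul_comm 4 p]; exact Nat.mul_le_mul le_rfl (by omega)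
    refine ⟨by omega, disc ?_ (h _ (by omega))⟩
    rw [harm_mul]
    refine (padicNorm.nonarchimedean (p := p)).trans (max_le ?_ ?_)
    · rw [padicNorm.div, norm_p, div_le_iff₀ hp0, ← pow_two]
      exact ih.2
    · exact norm_sum_le _ _ _ hp0.le fun j _ => norm_blk_le (by omega) j
  | top n _ ih =>
    have h1 : 4 * p ≤ p * n := by
      rw [mul_comm 4 p]; exact Nat.mul_le_mul le_rfl (by omega)
    refine ⟨by omega, disc ?_ (h _ (by omega))⟩
    rw [harm_top, harm_mul]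
    refine (padicNorm.nonarchimedean (p := p)).trans (max_le ?_ (norm_blk_le (by omega) n))
    refine (padicNorm.nonarchimedean (p := p)).trans (max_le ?_ ?_)
    · rw [padicNorm.div, norm_p, div_le_iff₀ hp0, ← pow_two]
      exact ih.2
    · exact norm_sum_le _ _ _ hp0.le fun j _ => norm_blk_le (by omega) j

theorem lagr {s : Finset ℕ} {v : ℕ → ℚ} (hs : s.Nonempty) (hv : Set.InjOn v s) {c : ℚ}
    (hc : ∀ i ∈ s, v i + c ≠ 0) :
    ∑ i ∈ s, Lagrange.nodalWeight s v i * (v i + c)⁻¹ =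
      (-1) ^ (s.card + 1) * ∏ i ∈ s, (v i + c)⁻¹ := by
  have h1 := Lagrange.eval_interpolate_not_at_node (s := s) (v := v) (x := -c) 1 (by
    intro i hi h
    exact hc i hi (by rw [← h]; ring))
  rw [Lagrange.interpolate_one hv hs, Polynomial.eval_one, Lagrange.eval_nodal] at h1
  have h2 : ∏ i ∈ s, (-c - v i) = (-1) ^ s.card * ∏ i ∈ s, (v i + c) := by
    rw [← Finset.prod_neg]
    exact prod_congr rfl fun i _ => by ring
  have h3 : ∑ i ∈ s, Lagrange.nodalWeight s v i * (-c - v i)⁻¹ * (1 : ℕ → ℚ) i =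
      - ∑ i ∈ s, Lagrange.nodalWeight s v i * (v i + c)⁻¹ := by
    rw [← sum_neg_distrib]
    refine sum_congr rfl fun i _ => ?_
    have : -c - v i = -(v i + c) := by ring
    rw [this, inv_neg]
    simp
  rw [h2, h3] at h1
  have h4 : ∏ i ∈ s, (v i + c) ≠ 0 := prod_ne_zero_iff.2 hc
  rw [prod_inv_distrib]
  have h5 : ((-1 : ℚ) ^ s.card) * (-1) ^ s.card = 1 := by
    rw [← mul_pow]; simp
  rw [pow_succ, eq_mul_inv_iff_mul_eq₀ h4]
  linear_combination ((-1 : ℚ) ^ s.card) * h1 - ((∏ i ∈ s, (v i + c)) *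
    (∑ i ∈ s, Lagrange.nodalWeight s v i * (v i + c)⁻¹)) * h5

theorem card_mult {i : ℕ} : #{e ∈ range (p ^ i * (p - 1)) | p ^ i ∣ e + 1} = p - 1 := by
  rw [Nat.card_multiples, Nat.mul_div_cancel_left _ (pow_pos hp.out.pos i)]

/-- The terms of the sum. -/
theorem term_norm (hp5 : 5 ≤ p) (x : ℕ → ℕ) (i k : ℕ) (hk : k < p ^ i * (p - 1)) :
    padicNorm p (∏ a ∈ range (p - 1), (((p * x a : ℕ) : ℚ) + ((k + 1 : ℕ) : ℚ) / (p : ℚ) ^ i)⁻¹ -
      (if p ^ i ∣ k + 1 then 1 else 0)) ≤ (p : ℚ)⁻¹ := by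
  have hp0 : (p : ℚ) ≠ 0 := by exact_mod_cast hp.out.ne_zero
  have hpp : (0 : ℚ) < p := by exact_mod_cast hp.out.pos
  split_ifs with h
  · obtain ⟨m, hm⟩ := h
    have hm0 : 0 < m := by
      rcases Nat.eq_zero_or_pos m with h0 | h0
      · subst h0; simp at hm
      · exact h0
    have hmp : m < p := by
      have h1 : p ^ i * m ≤ p ^ i * (p - 1) := by rw [← hm]; exact hk
      have h2 := Nat.le_of_mul_le_mul_left h1 (pow_pos hp.out.pos i)
      have := hp.out.pos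
      omega
    have h1 : ∀ a, ((p * x a : ℕ) : ℚ) + ((k + 1 : ℕ) : ℚ) / (p : ℚ) ^ i =
        ((p * x a + m : ℕ) : ℚ) := by
      intro a
      rw [hm]
      push_cast
      field_simp
    simp_rw [h1]
    rw [prod_inv_distrib]
    set D : ℕ := ∏ a ∈ range (p - 1), (p * x a + m) with hD
    have h2 : ∏ a ∈ range (p - 1), ((p * x a + m : ℕ) : ℚ) = (D : ℚ) := by
      rw [hD]; push_cast; rfl
    rw [h2]
    have hDm : (D : ZMod p) = 1 := by
      rw [hD]
      push_cast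
      simp only [CharP.cast_eq_zero, zero_mul, zero_add]
      rw [prod_const, card_range]
      refine ZMod.pow_card_sub_one_eq_one fun h => ?_
      rw [ZMod.natCast_eq_zero_iff] at h
      have := Nat.le_of_dvd hm0 h
      omega
    have hDd : ¬ (p : ℤ) ∣ (D : ℤ) := by
      intro h
      have : p ∣ D := by exact_mod_cast h
      rw [← ZMod.natCast_eq_zero_iff, hDm] at this
      exact one_ne_zero this
    have hD0 : (D : ℚ) ≠ 0 := by
      intro h
      apply hDd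
      have : D = 0 := by exact_mod_cast h
      rw [this]; simp
    have h3 : ((D : ℚ))⁻¹ - 1 = ((1 - (D : ℤ) : ℤ) : ℚ) / (D : ℚ) := by
      push_cast
      field_simp
    have h4 : padicNorm p (D : ℚ) = 1 := by
      have := norm_unit_of_coprime hDd
      simpa using this
    rw [h3, padicNorm.div, h4, div_one]
    refine norm_le_inv ?_
    rw [← ZMod.intCast_zmod_eq_zero_iff_dvd]
    push_cast
    rw [hDm, sub_self]
  · rw [sub_zero]
    apply disc'
    rw [norm_prod]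
    have h1 : ∀ a ∈ range (p - 1),
        padicNorm p (((p * x a : ℕ) : ℚ) + ((k + 1 : ℕ) : ℚ) / (p : ℚ) ^ i)⁻¹ < 1 ∧
        0 < padicNorm p (((p * x a : ℕ) : ℚ) + ((k + 1 : ℕ) : ℚ) / (p : ℚ) ^ i)⁻¹ := by
      intro a _
      have h2 : ((p * x a : ℕ) : ℚ) + ((k + 1 : ℕ) : ℚ) / (p : ℚ) ^ i =
          ((p ^ i * (p * x a) + (k + 1) : ℕ) : ℚ) / (p : ℚ) ^ i := by
        push_cast
        field_simp
      set M : ℕ := p ^ i * (p * x a) + (k + 1) with hM
      have hM0 : (M : ℚ) ≠ 0 := by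
        have : 0 < M := by omega
        positivity
      have hMd : ¬ ((p ^ i : ℕ) : ℤ) ∣ (M : ℤ) := by
        intro h'
        have h3 : p ^ i ∣ M := by exact_mod_cast h'
        exact h ((Nat.dvd_add_right (dvd_mul_right _ _)).1 h3)
      have h3 : (p : ℚ) ^ (-(i : ℤ)) < padicNorm p (M : ℚ) := by
        by_contra hcon
        push Not at hcon
        apply hMd
        have := (padicNorm.dvd_iff_norm_le (p := p) (n := i) (z := (M : ℤ))).2 (by simpa using hcon)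
        exact this
      have hNM : 0 < padicNorm p (M : ℚ) := lt_of_le_of_ne (padicNorm.nonneg _)
        (Ne.symm (padicNorm.nonzero hM0))
      have h4 : padicNorm p (((M : ℕ) : ℚ) / (p : ℚ) ^ i)⁻¹ = ((p : ℚ)⁻¹ ^ i) / padicNorm p (M : ℚ) := by
        rw [inv_div, padicNorm.div, norm_pow', norm_p]
      rw [h2, h4]
      constructor
      · rw [div_lt_one hNM]
        rw [zpow_neg, zpow_natCast] at h3
        rwa [inv_pow]
      · positivity
    have hne : (range (p - 1)).Nonempty := ⟨0, mem_range.2 (by omega)⟩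
    calc ∏ a ∈ range (p - 1), padicNorm p (((p * x a : ℕ) : ℚ) + ((k + 1 : ℕ) : ℚ) / (p : ℚ) ^ i)⁻¹
        < ∏ a ∈ range (p - 1), (1 : ℚ) :=
          prod_lt_prod_of_nonempty (fun a ha => (h1 a ha).2) (fun a ha => (h1 a ha).1) hne
      _ = 1 := by simp

theorem big_sum (hp5 : 5 ≤ p) (x : ℕ → ℕ) (i : ℕ) :
    1 ≤ padicNorm p (∑ k ∈ range (p ^ i * (p - 1)), ∏ a ∈ range (p - 1),
      (((p * x a : ℕ) : ℚ) + ((k + 1 : ℕ) : ℚ) / (p : ℚ) ^ i)⁻¹) := by
  set t : ℕ → ℚ := fun k => ∏ a ∈ range (p - 1),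
      (((p * x a : ℕ) : ℚ) + ((k + 1 : ℕ) : ℚ) / (p : ℚ) ^ i)⁻¹ with ht
  set d : ℕ → ℚ := fun k => if p ^ i ∣ k + 1 then 1 else 0 with hd
  have h1 : ∑ k ∈ range (p ^ i * (p - 1)), d k = ((p - 1 : ℕ) : ℚ) := by
    rw [hd, sum_boole, card_mult]
  have h2 : padicNorm p (∑ k ∈ range (p ^ i * (p - 1)), (t k - d k)) ≤ (p : ℚ)⁻¹ :=
    norm_sum_le _ _ _ inv_p_nonneg fun k hk => term_norm hp5 x i k (mem_range.1 hk)
  rw [sum_sub_distrib, h1] at h2
  have h3 : padicNorm p (((p - 1 : ℕ) : ℚ)) = 1 := by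
    have : ¬ (p : ℤ) ∣ ((p - 1 : ℕ) : ℤ) := by
      intro h
      have h' : p ∣ p - 1 := by exact_mod_cast h
      have := Nat.le_of_dvd (by omega) h'
      omega
    have := norm_unit_of_coprime this
    simpa using this
  by_contra hcon
  push Not at hcon
  have h4 : ((p - 1 : ℕ) : ℚ) = (∑ k ∈ range (p ^ i * (p - 1)), t k) -
      ((∑ k ∈ range (p ^ i * (p - 1)), t k) - ((p - 1 : ℕ) : ℚ)) := by ring
  have h5 : padicNorm p (((p - 1 : ℕ) : ℚ)) < 1 := by
    rw [h4]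
    refine lt_of_le_of_lt (padicNorm.sub (p := p)) (max_lt hcon (lt_of_le_of_lt h2 ?_))
    have : (1 : ℚ) < p := by exact_mod_cast hp.out.one_lt
    exact inv_lt_one_of_one_lt₀ this
  rw [h3] at h5
  exact lt_irrefl _ h5

/-- The main step. -/
theorem exists_norm (hp5 : 5 ≤ p) : ∃ n, 2 * p ≤ n ∧ padicNorm p (harmonic n) = (p : ℚ)⁻¹ := by
  by_contra hcon
  push Not at hcon
  have hp0 : (p : ℚ) ≠ 0 := by exact_mod_cast hp.out.ne_zero
  have hpp : (0 : ℚ) < p := by exact_mod_cast hp.out.pos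
  have hp1 : (1 : ℚ) < p := by exact_mod_cast hp.out.one_lt
  have hpi1 : (p : ℚ)⁻¹ < 1 := inv_lt_one_of_one_lt₀ hp1
  have hpi0 : 0 < (p : ℚ)⁻¹ := by positivity
  have hT := T_norm hp5 hcon
  let x : ℕ → ℕ := fun a => p ^ a * (p - 1)
  have hx : ∀ a, T p (x a) := fun a => T_pow T.base a
  let v : ℕ → ℚ := fun a => ((p * x a : ℕ) : ℚ)
  let s : Finset ℕ := range (p - 1)
  have hs : s.Nonempty := ⟨0, mem_range.2 (by omega)⟩
  have hv : Set.InjOn v s := by
    intro a _ b _ hab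
    have hab' : ((p * x a : ℕ) : ℚ) = ((p * x b : ℕ) : ℚ) := hab
    have h1 : p * x a = p * x b := Nat.cast_injective (R := ℚ) hab'
    have h2 : x a = x b := Nat.eq_of_mul_eq_mul_left hp.out.pos h1
    have h3 : p ^ a = p ^ b := Nat.eq_of_mul_eq_mul_right (by omega : 0 < p - 1) h2
    exact Nat.pow_right_injective hp.out.two_le h3
  let w : ℕ → ℚ := Lagrange.nodalWeight s v
  let C : ℚ := ∑ a ∈ s, padicNorm p (w a)
  have hC : ∀ a ∈ s, padicNorm p (w a) ≤ C := fun a ha =>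
    single_le_sum (f := fun a => padicNorm p (w a)) (fun _ _ => padicNorm.nonneg _) ha
  have hC0 : 0 ≤ C := sum_nonneg fun _ _ => padicNorm.nonneg _
  obtain ⟨i, hi⟩ := exists_pow_lt_of_lt_one (show (0 : ℚ) < (C + 1)⁻¹ by positivity) hpi1
  let A : ℕ → ℚ := fun a => harmonic (p ^ i * (p * x a + (p - 1))) - harmonic (p ^ i * (p * x a))
  have hA : ∀ a, padicNorm p (A a) ≤ (p : ℚ)⁻¹ ^ 2 := fun a =>
    (padicNorm.sub (p := p)).trans (max_le (hT _ (T_pow (T.top _ (hx a)) i)).2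
      (hT _ (T_pow (T.zero _ (hx a)) i)).2)
  have hAs : ∀ a, (p : ℚ) ^ i * A a = ∑ k ∈ range (p ^ i * (p - 1)),
      (v a + ((k + 1 : ℕ) : ℚ) / (p : ℚ) ^ i)⁻¹ := by
    intro a
    have h1 : p ^ i * (p * x a + (p - 1)) = p ^ i * (p * x a) + p ^ i * (p - 1) := by ring
    change (p : ℚ) ^ i * (harmonic (p ^ i * (p * x a + (p - 1))) - harmonic (p ^ i * (p * x a))) = _
    rw [h1, harm_add, add_sub_cancel_left, mul_sum]
    refine sum_congr rfl fun k _ => ?_
    change _ = (((p * x a : ℕ) : ℚ) + ((k + 1 : ℕ) : ℚ) / (p : ℚ) ^ i)⁻¹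
    have h2 : ((p ^ i * (p * x a) + (k + 1) : ℕ) : ℚ) ≠ 0 := by positivity
    have h3 : ((p * x a : ℕ) : ℚ) + ((k + 1 : ℕ) : ℚ) / (p : ℚ) ^ i =
        ((p ^ i * (p * x a) + (k + 1) : ℕ) : ℚ) / (p : ℚ) ^ i := by
      push_cast
      field_simp
    rw [h3, inv_div]
    ring
  have hsum : ∑ a ∈ s, w a * ((p : ℚ) ^ i * A a) = (-1) ^ (s.card + 1) *
      ∑ k ∈ range (p ^ i * (p - 1)), ∏ a ∈ range (p - 1),
      (((p * x a : ℕ) : ℚ) + ((k + 1 : ℕ) : ℚ) / (p : ℚ) ^ i)⁻¹ := by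
    simp_rw [hAs, mul_sum]
    rw [sum_comm]
    refine sum_congr rfl fun k _ => ?_
    exact lagr hs hv (fun a _ => by positivity)
  have hbig := big_sum hp5 x i
  have h1 : padicNorm p (∑ a ∈ s, w a * ((p : ℚ) ^ i * A a)) < 1 := by
    refine padicNorm.sum_lt' (fun a ha => ?_) one_pos
    rw [padicNorm.mul, padicNorm.mul, norm_pow', norm_p]
    have h2 : padicNorm p (w a) * ((p : ℚ)⁻¹ ^ i * padicNorm p (A a)) ≤ C * ((p : ℚ)⁻¹ ^ i * (p : ℚ)⁻¹ ^ 2) := by
      refine mul_le_mul (hC a ha) ?_ ?_ hC0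
      · exact mul_le_mul_of_nonneg_left (hA a) (by positivity)
      · exact mul_nonneg (by positivity) (padicNorm.nonneg _)
    refine lt_of_le_of_lt h2 ?_
    have h3 : (p : ℚ)⁻¹ ^ 2 ≤ 1 := pow_le_one₀ hpi0.le hpi1.le
    calc C * ((p : ℚ)⁻¹ ^ i * (p : ℚ)⁻¹ ^ 2) ≤ C * ((p : ℚ)⁻¹ ^ i * 1) := by
          refine mul_le_mul_of_nonneg_left ?_ hC0
          exact mul_le_mul_of_nonneg_left h3 (by positivity)
      _ ≤ (C + 1) * (p : ℚ)⁻¹ ^ i := by
          rw [mul_one]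
          exact mul_le_mul_of_nonneg_right (by linarith) (by positivity)
      _ < (C + 1) * (C + 1)⁻¹ := mul_lt_mul_of_pos_left hi (by positivity)
      _ = 1 := mul_inv_cancel₀ (by positivity)
  rw [hsum, padicNorm.mul, norm_pow', padicNorm.neg, padicNorm.one, one_pow, one_mul] at h1
  exact absurd h1 (not_lt.2 hbig)

/-- From the norm to divisibility. -/
theorem dvd_of_norm {n : ℕ} (hn : 2 * p ≤ n) (h : padicNorm p (harmonic n) = (p : ℚ)⁻¹) :
    p ∣ Nat.gcd (harmonic n).num.natAbs n.factorial ∧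
      ¬ p ^ 2 ∣ Nat.gcd (harmonic n).num.natAbs n.factorial := by
  have hp1 : (1 : ℚ) < p := by exact_mod_cast hp.out.one_lt
  have hpi1 : (p : ℚ)⁻¹ < 1 := inv_lt_one_of_one_lt₀ hp1
  set q : ℚ := harmonic n with hq
  have h1 : q = (q.num : ℚ) / ((q.den : ℤ) : ℚ) := by
    have := (Rat.num_div_den q).symm
    simpa using this
  have h2 : padicNorm p q = padicNorm p (q.num : ℚ) / padicNorm p ((q.den : ℤ) : ℚ) := by
    conv_lhs => rw [h1]
    rw [padicNorm.div]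
  have hden0 : padicNorm p ((q.den : ℤ) : ℚ) ≠ 0 := by
    refine padicNorm.nonzero ?_
    have := q.den_nz
    exact_mod_cast this
  have hdenle : padicNorm p ((q.den : ℤ) : ℚ) ≤ 1 := padicNorm.of_int _
  have hdenpos : 0 < padicNorm p ((q.den : ℤ) : ℚ) := lt_of_le_of_ne (padicNorm.nonneg _) (Ne.symm hden0)
  have h3 : padicNorm p (q.num : ℚ) = (p : ℚ)⁻¹ * padicNorm p ((q.den : ℤ) : ℚ) := by
    rw [← h, h2]; field_simp
  have h4 : (p : ℤ) ∣ q.num := by
    rw [← padicNorm.int_lt_one_iff, h3]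
    calc (p : ℚ)⁻¹ * padicNorm p ((q.den : ℤ) : ℚ) ≤ (p : ℚ)⁻¹ * 1 :=
          mul_le_mul_of_nonneg_left hdenle inv_p_nonneg
      _ < 1 := by rw [mul_one]; exact hpi1
  have h4' : p ∣ q.num.natAbs := Int.natCast_dvd.1 h4
  have h5 : ¬ (p : ℤ) ∣ (q.den : ℤ) := by
    intro h6
    have h7 : p ∣ q.den := by exact_mod_cast h6
    have h8 := Nat.dvd_gcd h4' h7
    rw [q.reduced.gcd_eq_one] at h8
    exact hp.out.one_lt.ne' (Nat.dvd_one.1 h8)
  have h6 : padicNorm p ((q.den : ℤ) : ℚ) = 1 := norm_unit_of_coprime h5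
  rw [h6, mul_one] at h3
  refine ⟨Nat.dvd_gcd h4' (Nat.dvd_factorial hp.out.pos (by omega)), fun h7 => ?_⟩
  have h8 : p ^ 2 ∣ q.num.natAbs := h7.trans (Nat.gcd_dvd_left _ _)
  have h9 : ((p ^ 2 : ℕ) : ℤ) ∣ q.num := Int.natCast_dvd.2 h8
  have h10 := (padicNorm.dvd_iff_norm_le (p := p) (n := 2) (z := q.num)).1 h9
  rw [h3] at h10
  have h11 : (p : ℚ)⁻¹ = (p : ℚ) ^ (-1 : ℤ) := by simp
  rw [h11] at h10
  have h12 := (zpow_le_zpow_iff_right₀ hp1).1 h10
  norm_num at h12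

end

/-- For every odd prime `p` there is an `n ≥ 1` such that `a n = gcd (num H_n) n!` is divisible
by `p` but not by `p ^ 2`. -/
theorem result : ∀ p : ℕ, p.Prime → p ≠ 2 → ∃ n : ℕ, 1 ≤ n ∧
    p ∣ Nat.gcd (harmonic n).num.natAbs n.factorial ∧
      ¬ p ^ 2 ∣ Nat.gcd (harmonic n).num.natAbs n.factorial := by
  intro p hp hp2
  by_cases hp5 : 5 ≤ p
  · have : Fact p.Prime := ⟨hp⟩
    obtain ⟨n, hn, h⟩ := exists_norm hp5
    exact ⟨n, by omega, dvd_of_norm hn h⟩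
  · have h3 : p = 3 := by
      have := hp.two_le
      interval_cases p
      · exact absurd rfl hp2
      · rfl
      · exact absurd hp (by norm_num)
    subst h3
    refine ⟨7, by norm_num, ?_⟩
    have h1 : harmonic 7 = 363 / 140 := by
      norm_num [harmonic, Finset.sum_range_succ]
    have h2 : (harmonic 7).num.natAbs = 363 := by
      have h3 : harmonic 7 = ((363 : ℤ) : ℚ) / ((140 : ℤ) : ℚ) := by rw [h1]; norm_num
      rw [h3, Rat.num_div_eq_of_coprime (by norm_num) (by norm_num)]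
      rfl
    rw [h2]
    decide +kernel

end Pool.Agent.Results.MP_0252b8_nt.ExactOnce
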