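import Mathlib

/-!
MP_0252b8_nt. `a n = gcd (u n) (n!)`, `u n` the reduced numerator of the harmonic number `H n`.
-/

set_option autoImplicit false

namespace Pool.Agent.Results.MP_0252b8_nt.FewPrimes

open Finset

/-- The reduced numerator of the `n`-th harmonic number. -/
def u (n : ℕ) : ℕ := (harmonic n).num.natAbs

/-- The greatest common divisor of the reduced numerator and `n!`. -/
def a (n : ℕ) : ℕ := Nat.gcd (u n) n.factorial

variable {p : ℕ} [hp : Fact p.Prime]

theorem norm_lt_iff {x : ℚ} : padicNorm p x < 1 ↔ (p : ℤ) ∣ x.num := by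
  have hden : (x.den : ℚ) ≠ 0 := by exact_mod_cast x.den_nz
  have hx : padicNorm p x = padicNorm p (x.num : ℚ) / padicNorm p (x.den : ℚ) := by
    rw [← padicNorm.div, Rat.num_div_den]
  constructor
  · intro h
    by_contra hn
    have h1 : padicNorm p (x.num : ℚ) = 1 := (padicNorm.int_eq_one_iff x.num).2 hn
    have h2 : padicNorm p (x.den : ℚ) ≤ 1 := padicNorm.of_nat x.den
    have h3 : 0 < padicNorm p (x.den : ℚ) :=
      lt_of_le_of_ne (padicNorm.nonneg _) (Ne.symm (padicNorm.nonzero hden))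
    rw [hx, h1, div_lt_one h3] at h
    linarith
  · intro h
    have h1 : padicNorm p (x.num : ℚ) < 1 := (padicNorm.int_lt_one_iff x.num).2 h
    have h2 : padicNorm p (x.den : ℚ) = 1 := by
      rw [padicNorm.nat_eq_one_iff]
      intro hd
      have h3 : p ∣ x.num.natAbs := by
        have := Int.natAbs_dvd_natAbs.2 h
        simpa using this
      have h4 := Nat.dvd_gcd h3 hd
      rw [x.reduced] at h4
      exact hp.out.one_lt.ne' (Nat.dvd_one.1 h4)
    rw [hx, h2, div_one]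
    exact h1

theorem norm_lt_iff' {n : ℕ} : padicNorm p (harmonic n) < 1 ↔ p ∣ u n := by
  rw [norm_lt_iff, u, ← Int.natCast_dvd]

/-- The part of the harmonic sum over the integers prime to `p`. -/
def rest (p n : ℕ) : ℚ := ∑ i ∈ (Icc 1 n).filter (fun i => ¬ p ∣ i), ((i : ℚ))⁻¹

theorem harmonic_split (p n : ℕ) (hp0 : 0 < p) :
    harmonic n = (p : ℚ)⁻¹ * harmonic (n / p) + rest p n := by
  rw [harmonic_eq_sum_Icc, harmonic_eq_sum_Icc, rest,
    ← Finset.sum_filter_add_sum_filter_not (Icc 1 n) (fun i => p ∣ i)]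
  congr 1
  rw [Finset.mul_sum]
  symm
  apply Finset.sum_bij (fun j _ => p * j)
  · intro j hj
    rw [mem_Icc] at hj
    rw [mem_filter, mem_Icc]
    refine ⟨⟨Nat.mul_pos hp0 hj.1, ?_⟩, dvd_mul_right _ _⟩
    calc p * j ≤ p * (n / p) := Nat.mul_le_mul_left _ hj.2
      _ ≤ n := Nat.mul_div_le n p
  · intro j _ j' _ h
    exact Nat.eq_of_mul_eq_mul_left hp0 h
  · intro i hi
    rw [mem_filter, mem_Icc] at hi
    obtain ⟨⟨h1, h2⟩, j, rfl⟩ := hi
    refine ⟨j, ?_, rfl⟩
    rw [mem_Icc]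
    exact ⟨Nat.pos_of_mul_pos_left h1 |> fun h => by
      rcases Nat.eq_zero_or_pos j with h0 | h0
      · subst h0; simp at h1
      · exact h0, (Nat.le_div_iff_mul_le hp0).2 (by rwa [mul_comm])⟩
  · intro j _
    push_cast
    rw [mul_inv]

theorem rest_norm (n : ℕ) : padicNorm p (rest p n) ≤ 1 := by
  unfold rest
  apply padicNorm.sum_le' _ zero_le_one
  intro i hi
  rw [mem_filter] at hi
  have h1 : padicNorm p (i : ℚ) = 1 := (padicNorm.nat_eq_one_iff i).2 hi.2
  have h2 : padicNorm p ((i : ℚ)⁻¹) = 1 := by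
    rw [← one_div, padicNorm.div, padicNorm.one, h1, div_one]
  exact h2.le

/-- one digit -/
theorem step {n : ℕ} (h : p ∣ u n) : p ∣ u (n / p) := by
  rw [← norm_lt_iff'] at h ⊢
  have hp0 : (p : ℚ) ≠ 0 := by exact_mod_cast hp.out.ne_zero
  have h1 : harmonic (n / p) = p * (harmonic n - rest p n) := by
    rw [harmonic_split p n hp.out.pos]
    field_simp
    ring
  rw [h1, padicNorm.mul]
  have h2 : padicNorm p (harmonic n - rest p n) ≤ 1 :=
    (padicNorm.sub (p := p)).trans (max_le h.le (rest_norm n))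
  have h3 : padicNorm p (p : ℚ) < 1 := padicNorm.padicNorm_p_lt_one_of_prime
  calc padicNorm p (p : ℚ) * padicNorm p (harmonic n - rest p n)
      ≤ padicNorm p (p : ℚ) * 1 := mul_le_mul_of_nonneg_left h2 (padicNorm.nonneg _)
    _ < 1 := by rw [mul_one]; exact h3

theorem u_le (k : ℕ) : u k ≤ k * k.factorial := by
  have hpos : 0 ≤ harmonic k := by
    rcases Nat.eq_zero_or_pos k with rfl | h
    · simp
    · exact (harmonic_pos h.ne').le
  have hH : harmonic k ≤ k := by
    rw [harmonic_eq_sum_Icc]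
    calc ∑ i ∈ Icc 1 k, ((i : ℚ))⁻¹ ≤ ∑ i ∈ Icc 1 k, (1 : ℚ) := by
          apply Finset.sum_le_sum
          intro i hi
          rw [mem_Icc] at hi
          apply inv_le_one_of_one_le₀
          exact_mod_cast hi.1
      _ = k := by simp
  have hd : (harmonic k).den ≤ k.factorial := by
    apply Nat.le_of_dvd (Nat.factorial_pos k)
    have h1 : ∃ z : ℤ, (k.factorial : ℚ) * harmonic k = z := by
      refine ⟨((∑ i ∈ Icc 1 k, k.factorial / i : ℕ) : ℤ), ?_⟩
      rw [harmonic_eq_sum_Icc, Finset.mul_sum, Int.cast_natCast, Nat.cast_sum]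
      apply Finset.sum_congr rfl
      intro i hi
      rw [mem_Icc] at hi
      have h2 : i ∣ k.factorial := Nat.dvd_factorial hi.1 hi.2
      rw [Nat.cast_div_charZero h2]
      rfl
    obtain ⟨z, hz⟩ := h1
    have h3 : harmonic k = Rat.divInt z (k.factorial : ℤ) := by
      rw [Rat.divInt_eq_div, ← hz]
      have : (k.factorial : ℚ) ≠ 0 := by exact_mod_cast (Nat.factorial_pos k).ne'
      push_cast
      field_simp
    have h4 := Rat.den_dvd z (k.factorial : ℤ)
    rw [← h3] at h4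
    exact_mod_cast h4
  have h5 : ((u k : ℕ) : ℚ) = harmonic k * (harmonic k).den := by
    rw [Rat.mul_den_eq_num, u, Nat.cast_natAbs, abs_of_nonneg (Rat.num_nonneg.2 hpos)]
  have h6 : ((u k : ℕ) : ℚ) ≤ (k : ℚ) * k.factorial := by
    rw [h5]
    apply mul_le_mul hH _ (by positivity) (by positivity)
    exact_mod_cast hd
  exact_mod_cast h6

theorem u_pos {k : ℕ} (h : k ≠ 0) : 0 < u k := by
  rw [u]
  apply Int.natAbs_pos.2
  exact Rat.num_ne_zero.2 (harmonic_pos h).ne'

/-- the primes `p ∣ a n` with `⌊n / p⌋ = k` -/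
theorem card_level {n K k : ℕ} (hK : K ^ 2 ≤ n) (hk1 : 1 ≤ k) (hk : k < K) :
    ((a n).primeFactors.filter (fun p => n / p = k)).card ≤ k := by
  set P := (a n).primeFactors.filter (fun p => n / p = k) with hP
  have h1 : ∀ p ∈ P, p.Prime ∧ p ∣ u k ∧ K + 1 ≤ p := by
    intro p hp
    rw [hP, mem_filter] at hp
    obtain ⟨hp1, hp2⟩ := hp
    have hpp := Nat.prime_of_mem_primeFactors hp1
    have hpa := Nat.dvd_of_mem_primeFactors hp1
    have : Fact p.Prime := ⟨hpp⟩
    have h2 : p ∣ u n := hpa.trans (Nat.gcd_dvd_left _ _)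
    have h3 := step h2
    rw [hp2] at h3
    refine ⟨hpp, h3, ?_⟩
    by_contra hcon
    have h4 : p ≤ K := by omega
    have h5 : n < p * (k + 1) := by
      have := Nat.lt_mul_div_succ n hpp.pos
      rwa [hp2] at this
    have h6 : p * (k + 1) ≤ K * K := Nat.mul_le_mul h4 hk
    nlinarith
  have h2 : ∏ p ∈ P, p ∣ u k := by
    apply Finset.prod_primes_dvd
    · intro p hp
      exact (h1 p hp).1.prime
    · intro p hp
      exact (h1 p hp).2.1
  have h3 : ∏ p ∈ P, p ≤ k ^ (k + 1) := by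
    refine (Nat.le_of_dvd (u_pos (by omega)) h2).trans ((u_le k).trans ?_)
    rw [pow_succ, mul_comm]
    exact Nat.mul_le_mul_right _ (Nat.factorial_le_pow k)
  have h4 : (K + 1) ^ P.card ≤ ∏ p ∈ P, p := by
    apply Finset.pow_card_le_prod
    intro p hp
    exact (h1 p hp).2.2
  by_contra hcon
  have h5 : k + 1 ≤ P.card := by omega
  have h6 : (K + 1) ^ (k + 1) ≤ (K + 1) ^ P.card := Nat.pow_le_pow_right (by omega) h5
  have h7 : k ^ (k + 1) < (K + 1) ^ (k + 1) := Nat.pow_lt_pow_left (by omega) (by omega)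
  omega

/-- the bound with a free parameter -/
theorem card_bound {n K : ℕ} (hK0 : 1 ≤ K) (hK : K ^ 2 ≤ n) :
    (a n).primeFactors.card ≤ n / K + ∑ k ∈ range K, k := by
  have hn : 0 < n := by nlinarith
  have hle : ∀ p ∈ (a n).primeFactors, 1 ≤ p ∧ p ≤ n := by
    intro p hp
    have hpp := Nat.prime_of_mem_primeFactors hp
    have hpa := Nat.dvd_of_mem_primeFactors hp
    exact ⟨hpp.pos, (hpp.dvd_factorial).1 (hpa.trans (Nat.gcd_dvd_right _ _))⟩
  have h1 : (a n).primeFactors ⊆ (Icc 1 (n / K)) ∪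
      (range K).biUnion (fun k => (a n).primeFactors.filter (fun p => n / p = k)) := by
    intro p hp
    rw [mem_union]
    by_cases h : n / p < K
    · right
      rw [mem_biUnion]
      exact ⟨n / p, mem_range.2 h, mem_filter.2 ⟨hp, rfl⟩⟩
    · left
      rw [mem_Icc]
      refine ⟨(hle p hp).1, ?_⟩
      rw [Nat.le_div_iff_mul_le hK0]
      have h2 : K ≤ n / p := by omega
      have h3 := (Nat.le_div_iff_mul_le (hle p hp).1).1 h2
      rwa [mul_comm]
  refine (Finset.card_le_card h1).trans ((Finset.card_union_le _ _).trans ?_)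
  rw [Nat.card_Icc, Nat.add_sub_cancel]
  apply Nat.add_le_add_left
  refine Finset.card_biUnion_le.trans (Finset.sum_le_sum ?_)
  intro k hk
  rw [mem_range] at hk
  rcases Nat.eq_zero_or_pos k with rfl | hk0
  · rw [Nat.le_zero, Finset.card_eq_zero, Finset.filter_eq_empty_iff]
    intro p hp h
    have h2 := hle p hp
    have h3 : 0 < n / p := Nat.div_pos h2.2 h2.1
    omega
  · exact card_level hK hk0 hk

/-- At most `2 n^(2/3)` primes divide `a n`. -/
theorem result (n : ℕ) (hn : 1 ≤ n) :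
    ((a n).primeFactors.card : ℝ) ≤ 2 * (n : ℝ) ^ (2 / 3 : ℝ) := by
  set x : ℝ := (n : ℝ) ^ (1 / 3 : ℝ) with hx
  have hn' : (1 : ℝ) ≤ n := by exact_mod_cast hn
  have hx1 : 1 ≤ x := Real.one_le_rpow hn' (by norm_num)
  have hx2 : (n : ℝ) ^ (2 / 3 : ℝ) = x ^ 2 := by
    rw [hx, ← Real.rpow_natCast, ← Real.rpow_mul (by linarith)]
    norm_num
  have hx3 : x ^ 3 = n := by
    rw [hx, ← Real.rpow_natCast, ← Real.rpow_mul (by linarith)]
    norm_num
  set K : ℕ := ⌊x⌋₊ with hKdef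
  have hKx : (K : ℝ) ≤ x := Nat.floor_le (by linarith)
  have hxK : x < K + 1 := Nat.lt_floor_add_one x
  have hK1 : 1 ≤ K := by
    rw [hKdef, Nat.one_le_floor_iff]
    exact hx1
  have hK1' : (1 : ℝ) ≤ K := by exact_mod_cast hK1
  have hK2 : K ^ 2 ≤ n := by
    have : ((K : ℝ)) ^ 2 ≤ n := by
      rw [← hx3]
      calc (K : ℝ) ^ 2 ≤ x ^ 2 := pow_le_pow_left₀ (by linarith) hKx 2
        _ ≤ x ^ 3 := pow_le_pow_right₀ hx1 (by norm_num)
    exact_mod_cast this
  have h1 := card_bound hK1 hK2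
  have h2 : ((a n).primeFactors.card : ℝ) ≤ n / K + K * (K - 1) / 2 := by
    have h3 : ((∑ k ∈ range K, k : ℕ) : ℝ) = K * (K - 1) / 2 := by
      have h4 := Finset.sum_range_id_mul_two K
      have h5 : ((∑ k ∈ range K, k : ℕ) : ℝ) * 2 = K * (K - 1) := by
        have : (((∑ k ∈ range K, k) * 2 : ℕ) : ℝ) = ((K * (K - 1) : ℕ) : ℝ) := by
          exact_mod_cast h4
        rw [Nat.cast_mul, Nat.cast_mul, Nat.cast_sub hK1] at this
        exact_mod_cast this
      linarith
    calc ((a n).primeFactors.card : ℝ) ≤ ((n / K + ∑ k ∈ range K, k : ℕ) : ℝ) := by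
          exact_mod_cast h1
      _ = ((n / K : ℕ) : ℝ) + ((∑ k ∈ range K, k : ℕ) : ℝ) := by push_cast; ring
      _ ≤ n / K + K * (K - 1) / 2 := by
          rw [h3]
          gcongr
          exact Nat.cast_div_le
  refine h2.trans ?_
  rw [hx2, ← hx3]
  have hK0 : (0 : ℝ) < K := by linarith
  have h3 : x ^ 3 / K ≤ x ^ 2 + x ^ 2 / K := by
    have h7 : x ^ 2 + x ^ 2 / K = x ^ 2 * (K + 1) / K := by field_simp
    rw [h7, div_le_div_iff_of_pos_right hK0, pow_succ]
    exact mul_le_mul_of_nonneg_left hxK.le (sq_nonneg x)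
  have h4 : (K : ℝ) * (K - 1) / 2 ≤ x ^ 2 * (1 - 1 / K) / 2 := by
    have h5 : (K : ℝ) * (K - 1) = K ^ 2 * (1 - 1 / K) := by field_simp
    rw [h5]
    have h6 : (0 : ℝ) ≤ 1 - 1 / K := by
      rw [sub_nonneg, div_le_one hK0]
      exact hK1'
    have h7 : (K : ℝ) ^ 2 ≤ x ^ 2 := pow_le_pow_left₀ (by linarith) hKx 2
    have := mul_le_mul_of_nonneg_right h7 h6
    linarith
  have h5 : x ^ 2 / K ≤ x ^ 2 := div_le_self (sq_nonneg x) hK1'
  have h6 : x ^ 2 * (1 - 1 / K) / 2 = x ^ 2 / 2 - x ^ 2 / K / 2 := by ring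
  linarith

end Pool.Agent.Results.MP_0252b8_nt.FewPrimes
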